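import Mathlib
import Pool.Agent.H317.GR.StmB

/-!
# Project GR (helper317): the integral representation (helper767)
-/

set_option autoImplicit false

namespace Pool.Agent.H767.GR

open Pool.Agent.H317.GR
open Matrix Module

theorem trace_map {n : ℕ} {R S : Type} [CommRing R] [CommRing S] (f : R →+* S)
    (A : Matrix (Fin n) (Fin n) R) : (A.map f).trace = f A.trace := by
  simp [Matrix.trace, map_sum]

theorem trace_conj {n : ℕ} {K : Type} [Field K] (P A B : GL (Fin n) K) (h : B * P = P * A) :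
    B.val.trace = A.val.trace := by
  have h1 : B = P * A * P⁻¹ := by
    rw [← h, mul_assoc, mul_inv_cancel, mul_one]
  rw [h1]
  rw [Units.val_mul, Matrix.trace_mul_comm, ← Units.val_mul, ← mul_assoc, inv_mul_cancel, one_mul]

theorem dl_map {n : ℕ} {R S : Type} [CommRing R] [CommRing S] (r : R →+* S)
    (A : SpecialLinearGroup (Fin n) R) :
    SpecialLinearGroup.map r (dl n R A) = dl n S (SpecialLinearGroup.map r A) := by
  apply Subtype.ext
  change ((A⁻¹).valᵀ).map r = ((SpecialLinearGroup.map r A)⁻¹).valᵀ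
  rw [← map_inv]
  rfl

theorem dl_eq_one {n : ℕ} {R : Type} [CommRing R] (A : SpecialLinearGroup (Fin n) R) :
    dl n R A = 1 ↔ A = 1 := by
  constructor
  · intro h
    have h1 : (A⁻¹).valᵀ = 1 := congrArg Subtype.val h
    have h2 : (A⁻¹).val = 1 := by
      rw [← Matrix.transpose_transpose (A⁻¹).val, h1, Matrix.transpose_one]
    have h3 : A⁻¹ = 1 := Subtype.ext h2
    exact inv_eq_one.mp h3
  · rintro rfl
    exact map_one _

theorem dl_trace {n : ℕ} {R : Type} [CommRing R] (A : SpecialLinearGroup (Fin n) R) :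
    (dl n R A).val.trace = (A⁻¹).val.trace := by
  change ((A⁻¹).valᵀ).trace = _
  rw [Matrix.trace_transpose]

theorem toQ_trace {n p : ℕ} [Fact p.Prime] (A : SpecialLinearGroup (Fin n) ℤ_[p]) :
    (toQ n p A).val.trace = ((A.val.trace : ℤ_[p]) : ℚ_[p]) := by
  change (A.val.map (algebraMap ℤ_[p] ℚ_[p])).trace = _
  rw [trace_map]
  rfl

/-- the case in which the trace of `ρ 2` is `ψ` -/
theorem sig_aux (hAIE : S_AIE) (hCNJ : S_CNJ) (hLAT : S_LAT) (hING : S_ING) (hMOD : S_MOD)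
    (hPAI : S_PAI) (n : ℕ) (hn : 3 ≤ n) (Λ : Type) [Group Λ]
    (f : ∀ m : ℕ, Λ →* SpecialLinearGroup (Fin n) (ZMod m)) (hf : Compat f)
    (ρ : ∀ (p : ℕ) [Fact p.Prime], Λ →* SpecialLinearGroup (Fin n) ℤ_[p])
    (hρ : ∀ (p : ℕ) [Fact p.Prime] (k : ℕ) (g : Λ),
      SpecialLinearGroup.map (PadicInt.toZModPow k) (ρ p g) = f (p ^ k) g)
    (hd : ∀ (p : ℕ) [Fact p.Prime], DenseP (ρ p)) (ψ : Λ → ℤ)
    (hψ : ∀ (p : ℕ) [Fact p.Prime],
      (∀ g, (ρ p g).val.trace = (ψ g : ℤ_[p])) ∨ (∀ g, (ρ p g).val.trace = (ψ g⁻¹ : ℤ_[p])))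
    [Fact (Nat.Prime 2)] (h2 : ∀ g, (ρ 2 g).val.trace = (ψ g : ℤ_[2]))
    (t : Λ) (v φ : Fin n → AlgebraicClosure ℚ_[2]) (hv : v ≠ 0) (hφ : φ ≠ 0)
    (ht : (GeneralLinearGroup.map (algebraMap ℚ_[2] (AlgebraicClosure ℚ_[2]))
      (toQ n 2 (ρ 2 t))).val = 1 + vecMulVec v φ) :
    ∃ σ : Λ →* SZ n,
      (∀ m : ℕ, 0 < m → ∀ g,
        SpecialLinearGroup.map (Int.castRingHom (ZMod m)) (σ g) = 1 ↔ f m g = 1) ∧
      ∃ v' φ' : Fin n → AlgebraicClosure ℚ_[2],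
        ((σ t).val - 1).map (Int.castRingHom (AlgebraicClosure ℚ_[2])) = vecMulVec v' φ' := by
  -- the representation over the algebraic closure
  have hAI2 : AI ((GeneralLinearGroup.map (algebraMap ℚ_[2] (AlgebraicClosure ℚ_[2]))).comp
      ((toQ n 2).comp (ρ 2))) :=
    hAIE ℚ_[2] (AlgebraicClosure ℚ_[2]) (algebraMap ℚ_[2] (AlgebraicClosure ℚ_[2])) Λ n
      ((toQ n 2).comp (ρ 2)) (hPAI n hn 2 Λ (ρ 2) (hd 2)).2.2.1
  have hCZ : CharZero (AlgebraicClosure ℚ_[2]) :=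
    charZero_of_injective_algebraMap (algebraMap ℚ_[2] (AlgebraicClosure ℚ_[2])).injective
  have htr : ∀ g, ((((GeneralLinearGroup.map (algebraMap ℚ_[2] (AlgebraicClosure ℚ_[2]))).comp
      ((toQ n 2).comp (ρ 2))) g).val).trace = (ψ g : AlgebraicClosure ℚ_[2]) := by
    intro g
    change ((toQ n 2 (ρ 2 g)).val.map (algebraMap ℚ_[2] (AlgebraicClosure ℚ_[2]))).trace = _
    rw [trace_map, toQ_trace, h2]
    simp
  obtain ⟨σ₀, P, hσ₀⟩ := hLAT (AlgebraicClosure ℚ_[2]) Λ n _ ψ hAI2 htr t v φ hv hφ ht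
  have hσtr : ∀ g, (σ₀ g).val.trace = ψ g := by
    intro g
    have h1 := trace_conj P _ _ (hσ₀ g)
    rw [htr g] at h1
    have h3 : (GeneralLinearGroup.map (Int.castRingHom (AlgebraicClosure ℚ_[2])) (σ₀ g)).val.trace =
        (((σ₀ g).val.trace : ℤ) : AlgebraicClosure ℚ_[2]) := by
      change ((σ₀ g).val.map (Int.castRingHom (AlgebraicClosure ℚ_[2]))).trace = _
      rw [trace_map]
      rfl
    rw [h3] at h1
    exact_mod_cast h1
  -- every prime
  have key : ∀ (q : ℕ) [Fact q.Prime] (ρ' : Λ →* SpecialLinearGroup (Fin n) ℤ_[q]),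
      DenseP ρ' → (∀ g, (ρ' g).val.trace = (ψ g : ℤ_[q])) →
      ∃ T : GL (Fin n) ℤ_[q], ∀ g, GeneralLinearGroup.map (Int.castRingHom ℤ_[q]) (σ₀ g) * T =
        T * SpecialLinearGroup.toGL (ρ' g) := by
    intro q hq ρ' hd' htr'
    have hAI := (hPAI n hn q Λ ρ' hd').2.2.1
    obtain ⟨Pq, hPq⟩ := hCNJ ℚ_[q] Λ n ((toQ n q).comp ρ')
      ((GeneralLinearGroup.map (Int.castRingHom ℚ_[q])).comp σ₀) hAI (by
        intro g
        change (toQ n q (ρ' g)).val.trace =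
          ((σ₀ g).val.map (Int.castRingHom ℚ_[q])).trace
        rw [trace_map, toQ_trace, htr', hσtr]
        simp)
    exact hING n (by omega) q Λ ρ' σ₀ hd' Pq hPq
  obtain ⟨σ', hσ'1, hσ'2⟩ := hMOD n Λ f hf σ₀ (by
    intro q hq
    rcases hψ q with h | h
    · obtain ⟨T, hT⟩ := key q (ρ q) (hd q) h
      exact ⟨ρ q, T, fun k g => by rw [hρ], hT⟩
    · obtain ⟨T, hT⟩ := key q ((dl n ℤ_[q]).comp (ρ q)) (hPAI n hn q Λ (ρ q) (hd q)).2.2.2 (by
        intro g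
        change (dl n ℤ_[q] (ρ q g)).val.trace = _
        rw [dl_trace, ← map_inv, h, inv_inv])
      refine ⟨(dl n ℤ_[q]).comp (ρ q), T, fun k g => ?_, hT⟩
      change SpecialLinearGroup.map (PadicInt.toZModPow k) (dl n ℤ_[q] (ρ q g)) = 1 ↔ _
      rw [dl_map, dl_eq_one, hρ])
  refine ⟨σ', hσ'2, P.val *ᵥ v, φ ᵥ* (P⁻¹).val, ?_⟩
  have h1 : GeneralLinearGroup.map (Int.castRingHom (AlgebraicClosure ℚ_[2])) (σ₀ t) =
      P * (GeneralLinearGroup.map (algebraMap ℚ_[2] (AlgebraicClosure ℚ_[2]))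
        (toQ n 2 (ρ 2 t))) * P⁻¹ := by
    have h3 := hσ₀ t
    change GeneralLinearGroup.map (Int.castRingHom (AlgebraicClosure ℚ_[2])) (σ₀ t) * P =
      P * (GeneralLinearGroup.map (algebraMap ℚ_[2] (AlgebraicClosure ℚ_[2]))
        (toQ n 2 (ρ 2 t))) at h3
    rw [← h3, mul_assoc, mul_inv_cancel, mul_one]
  have h4 := congrArg Units.val h1
  rw [Units.val_mul, Units.val_mul, ht] at h4
  have h5 : ((σ₀ t).val).map (Int.castRingHom (AlgebraicClosure ℚ_[2])) =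
      P.val * (1 + vecMulVec v φ) * (P⁻¹).val := h4
  have h6 : ((σ' t).val - 1).map (Int.castRingHom (AlgebraicClosure ℚ_[2])) =
      ((σ₀ t).val).map (Int.castRingHom (AlgebraicClosure ℚ_[2])) - 1 := by
    rw [hσ'1]
    ext i j
    simp [Matrix.one_apply]
  have h7 : P.val * (P⁻¹).val = 1 := by
    rw [← Units.val_mul, mul_inv_cancel, Units.val_one]
  rw [h6, h5, Matrix.mul_add, Matrix.mul_one, Matrix.add_mul, h7, Matrix.mul_vecMulVec,
    Matrix.vecMulVec_mul]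
  simp

/-- **SIG**. -/
theorem sig : S_AIE → S_CNJ → S_LAT → S_ING → S_MOD → S_PAI → S_SIG := by
  intro hAIE hCNJ hLAT hING hMOD hPAI n hn Λ _ f hf ρ hρ hd ψ hψ t v φ hv hφ ht
  have hp2 : Fact (Nat.Prime 2) := ⟨Nat.prime_two⟩
  rcases hψ 2 with h | h
  · exact sig_aux hAIE hCNJ hLAT hING hMOD hPAI n hn Λ f hf ρ hρ hd ψ hψ h t v φ hv hφ ht
  · refine sig_aux hAIE hCNJ hLAT hING hMOD hPAI n hn Λ f hf ρ hρ hd (fun g => ψ g⁻¹) ?_ h t v φ hv
      hφ ht
    intro p hp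
    rcases hψ p with h1 | h1
    · exact Or.inr fun g => by
        rw [h1 g, inv_inv]
    · exact Or.inl h1

end Pool.Agent.H767.GR
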